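import Pool.Agent.PVD.StmtsM1

/-!
Squad PVD, block M1, row RSG: Riemann sums of a continuous function.
-/

set_option autoImplicit false

open MeasureTheory Filter Topology

namespace Pool.Agent.PVD.M.H56

open Pool.Agent.PVD.L

/-- the full Riemann sums -/
theorem rsum (g : ℝ → ℝ) (hg : ContinuousOn g (Set.Icc 0 1)) :
    Tendsto (fun n : ℕ => ((n : ℝ) + 1)⁻¹ * ∑ j ∈ Finset.range (n + 1), g (nd n j)) atTop
      (𝓝 (∫ t in (0:ℝ)..1, g t)) := by
  have huc := isCompact_Icc.uniformContinuousOn_of_continuous hg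
  rw [Metric.uniformContinuousOn_iff] at huc
  rw [Metric.tendsto_atTop]
  intro ε hε
  obtain ⟨δ, hδ, hd⟩ := huc (ε / 2) (by linarith)
  obtain ⟨N, hN⟩ := exists_nat_one_div_lt hδ
  refine ⟨N, fun n hn => ?_⟩
  have hn1 : (0 : ℝ) < (n : ℝ) + 1 := by positivity
  obtain ⟨a, ha⟩ : ∃ a : ℕ → ℝ, a = fun j : ℕ => (j : ℝ) / ((n : ℝ) + 1) := ⟨_, rfl⟩
  have haj : ∀ j, a j = (j : ℝ) / ((n : ℝ) + 1) := fun j => by rw [ha]
  have hnd : ∀ j, nd n j = a (j + 1) := by
    intro j
    rw [haj, nd]
    push_cast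
    rfl
  have hstep : ∀ j, a (j + 1) - a j = ((n : ℝ) + 1)⁻¹ := by
    intro j
    rw [haj, haj]
    push_cast
    field_simp
    ring
  have hmem : ∀ j, j ≤ n + 1 → a j ∈ Set.Icc (0 : ℝ) 1 := by
    intro j hj
    rw [haj]
    refine ⟨by positivity, ?_⟩
    rw [div_le_one hn1]
    have : ((j : ℕ) : ℝ) ≤ ((n + 1 : ℕ) : ℝ) := by exact_mod_cast hj
    push_cast at this
    exact this
  have hsub : ∀ j, j < n + 1 → Set.uIcc (a j) (a (j + 1)) ⊆ Set.Icc (0 : ℝ) 1 := by
    intro j hj
    exact Set.uIcc_subset_Icc (hmem j (by omega)) (hmem (j + 1) (by omega))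
  have hint : ∀ j, j < n + 1 → IntervalIntegrable g volume (a j) (a (j + 1)) := by
    intro j hj
    exact (hg.mono (hsub j hj)).intervalIntegrable
  have hsum := intervalIntegral.sum_integral_adjacent_intervals hint
  have h0 : a 0 = 0 := by
    rw [haj]
    simp
  have h1 : a (n + 1) = 1 := by
    rw [haj]
    push_cast
    exact div_self hn1.ne'
  rw [h0, h1] at hsum
  rw [Real.dist_eq, ← hsum, Finset.mul_sum, ← Finset.sum_sub_distrib]
  have hterm : ∀ j ∈ Finset.range (n + 1),
      |((n : ℝ) + 1)⁻¹ * g (nd n j) - ∫ x in a j..a (j + 1), g x| ≤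
        ε / 2 * ((n : ℝ) + 1)⁻¹ := by
    intro j hj
    rw [Finset.mem_range] at hj
    have e1 : ((n : ℝ) + 1)⁻¹ * g (nd n j) - ∫ x in a j..a (j + 1), g x =
        ∫ x in a j..a (j + 1), (g (nd n j) - g x) := by
      rw [intervalIntegral.integral_sub intervalIntegrable_const (hint j hj),
        intervalIntegral.integral_const, hstep, smul_eq_mul]
    rw [e1, ← Real.norm_eq_abs]
    have e2 := intervalIntegral.norm_integral_le_of_norm_le_const (a := a j) (b := a (j + 1))
      (C := ε / 2) (f := fun x => g (nd n j) - g x) (by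
        intro x hx
        have hx' := Set.uIoc_subset_uIcc hx
        have hle : a j ≤ a (j + 1) := by
          have := hstep j
          have h3 : (0 : ℝ) < ((n : ℝ) + 1)⁻¹ := by positivity
          linarith
        rw [Set.uIcc_of_le hle] at hx'
        have h4 : dist (nd n j) x < δ := by
          rw [hnd, Real.dist_eq, abs_of_nonneg (by linarith [hx'.2])]
          have h5 := hstep j
          have h6 : ((n : ℝ) + 1)⁻¹ ≤ 1 / ((N : ℝ) + 1) := by
            rw [one_div]
            apply inv_anti₀ (by positivity)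
            have : (N : ℝ) ≤ n := by exact_mod_cast hn
            linarith
          linarith [hx'.1]
        have h7 := hd (nd n j) (by rw [hnd]; exact hmem (j + 1) (by omega)) x
          (hsub j hj (Set.uIoc_subset_uIcc hx)) h4
        rw [Real.dist_eq] at h7
        rw [Real.norm_eq_abs]
        exact h7.le)
    refine e2.trans ?_
    rw [hstep, abs_of_pos (by positivity)]
  refine lt_of_le_of_lt (Finset.abs_sum_le_sum_abs _ _) ?_
  refine lt_of_le_of_lt (Finset.sum_le_sum hterm) ?_
  rw [Finset.sum_const, Finset.card_range, nsmul_eq_mul]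
  push_cast
  have : ((n : ℝ) + 1) * (ε / 2 * ((n : ℝ) + 1)⁻¹) = ε / 2 := by
    field_simp
  rw [this]
  linarith

/-- RSG -/
theorem rsg : RsgStmt := by
  intro g hg
  have h1 := rsum g hg
  have h2 : Tendsto (fun n : ℕ => ((n : ℝ) + 1)⁻¹ * g 1) atTop (𝓝 0) := by
    have h3 := (tendsto_one_div_add_atTop_nhds_zero_nat (𝕜 := ℝ)).mul_const (g 1)
    rw [zero_mul] at h3
    refine h3.congr fun n => ?_
    rw [one_div]
  have h4 : Tendsto (fun n : ℕ => 1 + ((n : ℝ))⁻¹) atTop (𝓝 (1 + 0)) :=
    tendsto_const_nhds.add tendsto_inv_atTop_nhds_zero_nat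
  have h5 := h4.mul (h1.sub h2)
  rw [add_zero, one_mul, sub_zero] at h5
  refine h5.congr' ?_
  filter_upwards [eventually_ge_atTop 1] with n hn
  have hn0 : (n : ℝ) ≠ 0 := by
    have : (0 : ℝ) < n := by exact_mod_cast hn
    exact this.ne'
  have hn1 : (n : ℝ) + 1 ≠ 0 := by positivity
  have hlast : nd n n = 1 := by
    rw [nd]
    exact div_self hn1
  rw [Finset.sum_range_succ, hlast]
  field_simp
  ring

end Pool.Agent.PVD.M.H56
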